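import Mathlib

set_option autoImplicit false
open MeasureTheory

namespace Pool.Agent.Results.MP_d698c5_an.NoHaar

/-- A right Haar measure on a group with a topology: a nonzero Radon measure on the Borel sets which
is invariant under all right translations (and a probability measure when the space is compact). -/
def IsRightHaar {G : Type} [Group G] [TopologicalSpace G] [MeasurableSpace G]
    (μ : Measure G) : Prop :=
  μ ≠ 0 ∧ μ.Regular ∧ (CompactSpace G → IsProbabilityMeasure μ) ∧
    ∀ (g : G) (E : Set G), MeasurableSet E → μ ((fun x => x * g) '' E) = μ E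

/-- an additive homomorphism `ℝ → ℝ`, zero at `1` but not identically zero -/
theorem exists_hom : ∃ f : ℝ →+ ℝ, f 1 = 0 ∧ f (Real.sqrt 2) ≠ 0 := by
  have hmem : Real.sqrt 2 ∉ Submodule.span ℚ ({1} : Set ℝ) := by
    intro h
    obtain ⟨a, ha⟩ := Submodule.mem_span_singleton.mp h
    apply irrational_sqrt_two
    refine ⟨a, ?_⟩
    rw [← ha, Rat.smul_def, mul_one]
  obtain ⟨φ, h1, h2⟩ := Submodule.exists_le_ker_of_notMem hmem
  refine ⟨(algebraMap ℚ ℝ).toAddMonoidHom.comp φ.toAddMonoidHom, ?_, ?_⟩
  · have : φ 1 = 0 := h2 (Submodule.subset_span rfl)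
    simp [this]
  · simpa using h1

theorem exists_theta : ∃ θ : AddCircle (1 : ℝ) →+ ℝ, ∃ b, θ b ≠ 0 := by
  obtain ⟨f, hf1, hf2⟩ := exists_hom
  refine ⟨QuotientAddGroup.lift (AddSubgroup.zmultiples (1 : ℝ)) f ?_,
    ((Real.sqrt 2 : ℝ) : AddCircle (1 : ℝ)), ?_⟩
  · intro x hx
    obtain ⟨k, rfl⟩ := AddSubgroup.mem_zmultiples_iff.mp hx
    rw [AddMonoidHom.mem_ker, map_zsmul, hf1, smul_zero]
  · exact hf2

/-- the wild character -/
noncomputable def theta : AddCircle (1 : ℝ) →+ ℝ := exists_theta.choose

theorem theta_ne : ∃ b, theta b ≠ 0 := exists_theta.choose_spec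

/-- the cylinder `𝕋 × ℝ`, with the product topology -/
def Cyl : Type := AddCircle (1 : ℝ) × ℝ

instance : TopologicalSpace Cyl := inferInstanceAs (TopologicalSpace (AddCircle (1 : ℝ) × ℝ))
instance : MeasurableSpace Cyl := inferInstanceAs (MeasurableSpace (AddCircle (1 : ℝ) × ℝ))
instance : BorelSpace Cyl := inferInstanceAs (BorelSpace (AddCircle (1 : ℝ) × ℝ))
instance : LocallyCompactSpace Cyl :=
  inferInstanceAs (LocallyCompactSpace (AddCircle (1 : ℝ) × ℝ))
instance : TopologicalSpace.MetrizableSpace Cyl :=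
  inferInstanceAs (TopologicalSpace.MetrizableSpace (AddCircle (1 : ℝ) × ℝ))

theorem cyl_ext {p q : Cyl} (h1 : p.1 = q.1) (h2 : p.2 = q.2) : p = q := Prod.ext h1 h2

/-- the group structure `(b,a)(b',a') = (b+b', exp(-θ(b')) a + a')` -/
noncomputable instance : Group Cyl where
  mul p q := (p.1 + q.1, Real.exp (-theta q.1) * p.2 + q.2)
  one := (0, 0)
  inv p := (-p.1, -(Real.exp (theta p.1) * p.2))
  mul_assoc p q r := by
    refine cyl_ext ?_ ?_
    · change (p.1 + q.1) + r.1 = p.1 + (q.1 + r.1)
      abel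
    · change Real.exp (-theta r.1) * (Real.exp (-theta q.1) * p.2 + q.2) + r.2
        = Real.exp (-theta (q.1 + r.1)) * p.2 + (Real.exp (-theta r.1) * q.2 + r.2)
      rw [map_add, neg_add, Real.exp_add]
      ring
  one_mul p := by
    refine cyl_ext ?_ ?_
    · change 0 + p.1 = p.1
      simp
    · change Real.exp (-theta p.1) * 0 + p.2 = p.2
      simp
  mul_one p := by
    refine cyl_ext ?_ ?_
    · change p.1 + 0 = p.1
      simp
    · change Real.exp (-theta 0) * p.2 + 0 = p.2
      simp
  inv_mul_cancel p := by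
    refine cyl_ext ?_ ?_
    · change -p.1 + p.1 = 0
      simp
    · change Real.exp (-theta p.1) * (-(Real.exp (theta p.1) * p.2)) + p.2 = 0
      have : Real.exp (-theta p.1) * Real.exp (theta p.1) = 1 := by
        rw [← Real.exp_add]; simp
      linear_combination (-p.2) * this

theorem mul_fst (p q : Cyl) : (p * q).1 = p.1 + q.1 := rfl
theorem mul_snd (p q : Cyl) : (p * q).2 = Real.exp (-theta q.1) * p.2 + q.2 := rfl

theorem continuous_mul_right' (q : Cyl) : Continuous (fun p : Cyl => p * q) := by
  have h : Continuous (fun p : AddCircle (1 : ℝ) × ℝ =>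
      (p.1 + q.1, Real.exp (-theta q.1) * p.2 + q.2)) := by fun_prop
  exact h

theorem no_haar (μ : Measure Cyl) (hμ : IsRightHaar μ) : False := by
  obtain ⟨h0, hreg, -, hinv⟩ := hμ
  have hsnd : Continuous (fun p : Cyl => p.2) :=
    (continuous_snd : Continuous (fun p : AddCircle (1 : ℝ) × ℝ => p.2))
  -- invariance in terms of preimages
  have hpre : ∀ (g : Cyl) (E : Set Cyl), MeasurableSet E →
      μ ((fun x => x * g) ⁻¹' E) = μ E := by
    intro g E hE
    have h1 : (fun x : Cyl => x * g) ⁻¹' E = (fun x => x * g⁻¹) '' E := by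
      ext x
      simp only [Set.mem_preimage, Set.mem_image]
      constructor
      · intro hx
        exact ⟨x * g, hx, by group⟩
      · rintro ⟨y, hy, rfl⟩
        simpa using hy
    rw [h1, hinv _ _ hE]
  set m : Measure ℝ := μ.map (fun p : Cyl => p.2) with hm
  have hmap : ∀ A : Set ℝ, MeasurableSet A → m A = μ ((fun p : Cyl => p.2) ⁻¹' A) :=
    fun A hA => Measure.map_apply hsnd.measurable hA
  -- translation invariance and scaling
  have haff : ∀ (g : Cyl) (A : Set ℝ), MeasurableSet A →
      m ((fun a => Real.exp (-theta g.1) * a + g.2) ⁻¹' A) = m A := by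
    intro g A hA
    have hmeas : Measurable (fun a : ℝ => Real.exp (-theta g.1) * a + g.2) := by fun_prop
    rw [hmap _ (hmeas hA), hmap _ hA, ← hpre g _ (hsnd.measurable hA)]
    rfl
  have hfin : IsFiniteMeasureOnCompacts m := by
    refine ⟨fun K hK => ?_⟩
    rw [hmap _ hK.measurableSet]
    have hc : IsCompact ((fun p : Cyl => p.2) ⁻¹' K) := by
      have h1 : IsCompact ((Set.univ : Set (AddCircle (1 : ℝ))) ×ˢ K) := isCompact_univ.prod hK
      have h2 : ((Set.univ : Set (AddCircle (1 : ℝ))) ×ˢ K)
          = (fun p : AddCircle (1 : ℝ) × ℝ => p.2) ⁻¹' K := by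
        ext p
        exact ⟨fun h => h.2, fun h => ⟨Set.mem_univ _, h⟩⟩
      rw [h2] at h1
      exact h1
    exact hc.measure_lt_top
  have hleft : m.IsAddLeftInvariant := by
    refine ⟨fun t => ?_⟩
    ext A hA
    rw [Measure.map_apply (by fun_prop) hA]
    have := haff (0, t) A hA
    simp only [map_zero, neg_zero, Real.exp_zero, one_mul] at this
    rw [← this]
    congr 1
    ext a
    simp [add_comm]
  have heq := Measure.isAddLeftInvariant_eq_smul m (volume : Measure ℝ)
  set k := Measure.addHaarScalarFactor m (volume : Measure ℝ) with hk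
  obtain ⟨b, hb⟩ := theta_ne
  have hs := haff (b, 0) (Set.Ioo 0 1) measurableSet_Ioo
  rw [heq] at hs
  simp only [Measure.smul_apply, Real.volume_Ioo, sub_zero] at hs
  have hpreI : (fun a : ℝ => Real.exp (-theta b) * a + 0) ⁻¹' (Set.Ioo 0 1)
      = Set.Ioo 0 (Real.exp (theta b)) := by
    ext a
    simp only [Set.mem_preimage, Set.mem_Ioo, add_zero]
    have he := Real.exp_pos (theta b)
    rw [Real.exp_neg]
    constructor
    · rintro ⟨h1, h2⟩
      have h1' : 0 < a := by
        have := (mul_pos_iff_of_pos_left (inv_pos.mpr he)).mp h1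
        exact this
      refine ⟨h1', ?_⟩
      rw [inv_mul_lt_iff₀ he] at h2
      simpa using h2
    · rintro ⟨h1, h2⟩
      refine ⟨mul_pos (inv_pos.mpr he) h1, ?_⟩
      rw [inv_mul_lt_iff₀ he]
      simpa using h2
  change k • volume ((fun a : ℝ => Real.exp (-theta b) * a + 0) ⁻¹' (Set.Ioo 0 1)) = _ at hs
  rw [hpreI, Real.volume_Ioo, sub_zero, ENNReal.smul_def, ENNReal.smul_def, smul_eq_mul,
    smul_eq_mul] at hs
  have hk0 : k = 0 := by
    by_contra hne
    have hne' : (k : ENNReal) ≠ 0 := by exact_mod_cast hne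
    have := (ENNReal.mul_right_inj hne' ENNReal.coe_ne_top).mp hs
    rw [ENNReal.ofReal_eq_ofReal_iff (Real.exp_pos _).le (by norm_num)] at this
    exact hb (Real.exp_eq_one_iff _ |>.mp this)
  rw [hk0, zero_smul] at heq
  apply h0
  rw [← Measure.measure_univ_eq_zero]
  have := hmap Set.univ MeasurableSet.univ
  rw [heq] at this
  simpa using this.symm

/-- **There is a metrizable locally compact right topological group without right Haar measure.** -/
theorem result : ∃ (G : Type) (_ : Group G) (_ : TopologicalSpace G) (_ : MeasurableSpace G),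
    BorelSpace G ∧ TopologicalSpace.MetrizableSpace G ∧ LocallyCompactSpace G ∧
    (∀ x : G, Continuous fun g : G => g * x) ∧ ¬ ∃ μ : Measure G, IsRightHaar μ :=
  ⟨Cyl, inferInstance, inferInstance, inferInstance, inferInstance, inferInstance, inferInstance,
    continuous_mul_right', fun ⟨μ, hμ⟩ => no_haar μ hμ⟩

end Pool.Agent.Results.MP_d698c5_an.NoHaar
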